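import Pool.Agent.Helper14.WK.StA

/-!
# Project WK, MODULE KB2: the values of `H` at the rational numbers
-/

set_option autoImplicit false

open UpperHalfPlane CongruenceSubgroup Filter Topology MeasureTheory
open scoped MatrixGroups

namespace Pool.Agent.Helper81.WK

open Pool.Agent.Helper14.WK
open Pool.Agent.Helper14.CV (G0 Homog EqC act)

/-- The primitive of `f(z) (z - x)^(2A)`. -/
private noncomputable def Ph {N : ℕ} {k : ℤ} (f : CuspForm (G0 N) k) (A : ℕ) (x : ℂ) (z : ℂ) : ℂ :=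
  ∑ j ∈ Finset.range (2 * A + 1), ((2 * A).choose j : ℂ) * (-x) ^ (2 * A - j) * EK f j z

private lemma Ph_deriv (he : SKE) {N : ℕ} (hN : NeZero N) {k : ℤ} (f : CuspForm (G0 N) k) (A : ℕ)
    (x z : ℂ) (hz : 0 < z.im) : HasDerivAt (Ph f A x) (fzK f z * (z - x) ^ (2 * A)) z := by
  have h1 : ∀ j ∈ Finset.range (2 * A + 1),
      HasDerivAt (fun z => ((2 * A).choose j : ℂ) * (-x) ^ (2 * A - j) * EK f j z)
      (((2 * A).choose j : ℂ) * (-x) ^ (2 * A - j) * (fzK f z * z ^ j)) z :=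
    fun j _ => ((he N hN k f z hz).1 j).const_mul _
  have h2 := HasDerivAt.fun_sum h1
  have h3 : ∑ j ∈ Finset.range (2 * A + 1),
      (((2 * A).choose j : ℂ) * (-x) ^ (2 * A - j) * (fzK f z * z ^ j)) =
      fzK f z * (z - x) ^ (2 * A) := by
    rw [sub_eq_add_neg, add_pow, Finset.mul_sum]
    refine Finset.sum_congr rfl fun j _ => ?_
    ring
  rw [h3] at h2
  exact h2

private lemma im_pt (x y : ℝ) : ((x : ℂ) + y * Complex.I).im = y := by simp

private lemma EK_top (hb : SKA1b) {N : ℕ} (hN : NeZero N) {k : ℤ} (f : CuspForm (G0 N) k) (j : ℕ)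
    (x : ℝ) : Tendsto (fun y : ℝ => EK f j ((x : ℂ) + y * Complex.I)) atTop (𝓝 0) := by
  obtain ⟨C, hC⟩ := hb N hN k f j
  have h1 : Tendsto (fun y : ℝ => 1 + |x| + y) atTop atTop := tendsto_atTop_add_const_left _ _ tendsto_id
  have h2 := ((Real.tendsto_pow_mul_exp_neg_atTop_nhds_zero j).comp h1).const_mul
    (|C| * Real.exp (1 + |x|))
  rw [mul_zero] at h2
  refine squeeze_zero_norm' ?_ h2
  filter_upwards [eventually_ge_atTop 1] with y hy
  have h3 := hC ((x : ℂ) + y * Complex.I) (by rw [im_pt]; exact hy)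
  rw [im_pt] at h3
  have hy0 : 0 ≤ y := by linarith
  have h4 : ‖(x : ℂ) + y * Complex.I‖ ≤ |x| + y := by
    refine (norm_add_le _ _).trans ?_
    rw [norm_mul, Complex.norm_I, mul_one, Complex.norm_real, Complex.norm_real, Real.norm_eq_abs,
      Real.norm_eq_abs, abs_of_nonneg hy0]
  have h5 : (1 + ‖(x : ℂ) + y * Complex.I‖) ^ j ≤ (1 + |x| + y) ^ j :=
    pow_le_pow_left₀ (by positivity) (by linarith) j
  have h6 : Real.exp (-2 * Real.pi * y) ≤ Real.exp (1 + |x|) * Real.exp (-(1 + |x| + y)) := by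
    rw [← Real.exp_add]
    apply Real.exp_le_exp.2
    have := Real.pi_gt_three
    nlinarith
  have h7 : (0 : ℝ) ≤ (1 + |x| + y) ^ j := by positivity
  calc ‖EK f j ((x : ℂ) + y * Complex.I)‖
      ≤ C * (1 + ‖(x : ℂ) + y * Complex.I‖) ^ j * Real.exp (-2 * Real.pi * y) := h3
    _ ≤ |C| * (1 + |x| + y) ^ j * (Real.exp (1 + |x|) * Real.exp (-(1 + |x| + y))) := by
        refine mul_le_mul ?_ h6 (Real.exp_pos _).le (by positivity)
        exact mul_le_mul (le_abs_self C) h5 (by positivity) (abs_nonneg C)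
    _ = |C| * Real.exp (1 + |x|) * ((1 + |x| + y) ^ j * Real.exp (-(1 + |x| + y))) := by ring

private lemma EK_zero {N A : ℕ} {k : ℤ} (f : CuspForm (G0 N) k) (I : ℤ → ℤ → ℕ → ℂ)
    (hI : IsPotK A f I) (p q : ℤ) (hq : 0 < q) (j : ℕ) (hj : j ≤ 2 * A) :
    Tendsto (fun y : ℝ => EK f j ((((p : ℝ) / (q : ℝ) : ℝ) : ℂ) + y * Complex.I)) (𝓝[>] 0)
      (𝓝 (I p q j)) := by
  have hq' : (0 : ℝ) < q := by exact_mod_cast hq
  have h1 := hI p (-1) q 0 (by linarith) j hj 0
  have h2 : Tendsto (fun y : ℝ => ((q : ℝ) * y)⁻¹) (𝓝[>] 0) atTop := by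
    refine tendsto_inv_nhdsGT_zero.comp ?_
    refine tendsto_nhdsWithin_iff.2 ⟨?_, ?_⟩
    · have : Tendsto (fun y : ℝ => (q : ℝ) * y) (𝓝 0) (𝓝 ((q : ℝ) * 0)) :=
        (continuous_const.mul continuous_id).tendsto 0
      rw [mul_zero] at this
      exact this.mono_left nhdsWithin_le_nhds
    · filter_upwards [self_mem_nhdsWithin] with y hy
      exact mul_pos hq' hy
  refine (h1.comp h2).congr' ?_
  filter_upwards [self_mem_nhdsWithin] with y hy
  have hy' : (0 : ℝ) < y := hy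
  have hyc : (y : ℂ) ≠ 0 := by exact_mod_cast hy'.ne'
  have hqc : (q : ℂ) ≠ 0 := by exact_mod_cast hq.ne'
  have hIc := Complex.I_ne_zero
  simp only [Function.comp_apply]
  congr 1
  push_cast
  rw [zero_add, add_zero]
  field_simp
  ring_nf
  rw [Complex.I_sq]
  ring

theorem hKB2 (_ : SKA1) (hb : SKA1b) (he : SKE) (hB : SKB1) : SKB2 := by
  intro N hN A f I hA hI p q hq
  have hq' : (0 : ℝ) < q := by exact_mod_cast hq
  have hqc : (q : ℂ) ≠ 0 := by exact_mod_cast hq.ne'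
  set x : ℝ := (p : ℝ) / (q : ℝ) with hx
  have hxc : (x : ℂ) = (p : ℂ) / (q : ℂ) := by rw [hx]; push_cast; rfl
  set L : ℂ := ∑ j ∈ Finset.range (2 * A + 1),
    ((2 * A).choose j : ℂ) * (-(x : ℂ)) ^ (2 * A - j) * I p q j with hL
  -- the limit at `0`
  have hlim0 : Tendsto (fun y : ℝ => Ph f A x ((x : ℂ) + y * Complex.I)) (𝓝[>] 0) (𝓝 L) := by
    refine tendsto_finset_sum _ fun j hj => ?_
    exact (EK_zero f I hI p q hq j (by have := Finset.mem_range.1 hj; omega)).const_mul _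
  -- the limit at infinity
  have hlimT : Tendsto (fun y : ℝ => Ph f A x ((x : ℂ) + y * Complex.I)) atTop (𝓝 0) := by
    have h0 : (0 : ℂ) = ∑ j ∈ Finset.range (2 * A + 1),
        ((2 * A).choose j : ℂ) * (-(x : ℂ)) ^ (2 * A - j) * 0 := by simp
    rw [h0]
    exact tendsto_finset_sum _ fun j _ => (EK_top hb hN f j x).const_mul _
  -- the derivative
  have hder : ∀ y : ℝ, 0 < y → HasDerivAt (fun y : ℝ => Ph f A x ((x : ℂ) + y * Complex.I))
      ((-1) ^ A * Complex.I * (fzK f ((x : ℂ) + y * Complex.I) * (y : ℂ) ^ (2 * A))) y := by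
    intro y hy
    have h1 := Ph_deriv he hN f A x ((x : ℂ) + y * Complex.I) (by rw [im_pt]; exact hy)
    have h2 : HasDerivAt (fun y : ℝ => (x : ℂ) + y * Complex.I) Complex.I y := by
      have h3 : HasDerivAt (fun y : ℝ => (y : ℂ)) 1 y := Complex.ofRealCLM.hasDerivAt
      have h4 := (h3.mul_const Complex.I).const_add (x : ℂ)
      rwa [one_mul] at h4
    have h5 := h1.comp y h2
    refine h5.congr_deriv ?_
    rw [add_sub_cancel_left, mul_pow, pow_mul Complex.I, Complex.I_sq]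
    ring
  -- integrability
  obtain ⟨⟨B, hBi, hBb⟩, _⟩ := hB N hN A f hA
  have hcont : ContinuousOn (fun y : ℝ => fzK f ((x : ℂ) + y * Complex.I) * (y : ℂ) ^ (2 * A))
      (Set.Ioi 0) := by
    refine ContinuousOn.mul ?_ (by fun_prop)
    have h1 : ContinuousOn (fzK f) {z : ℂ | 0 < z.im} :=
      (UpperHalfPlane.mdifferentiable_iff.mp f.holo').continuousOn
    refine h1.comp (by fun_prop) ?_
    intro y hy
    show 0 < ((x : ℂ) + y * Complex.I).im
    rw [im_pt]
    exact hy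
  have hint : IntegrableOn (fun y : ℝ => fzK f ((x : ℂ) + y * Complex.I) * (y : ℂ) ^ (2 * A))
      (Set.Ioi 0) := by
    refine Integrable.mono' hBi (hcont.aestronglyMeasurable measurableSet_Ioi) ?_
    refine (ae_restrict_iff' measurableSet_Ioi).2 (Filter.Eventually.of_forall fun y hy => ?_)
    exact hBb x y hy
  -- the fundamental theorem
  let F : ℝ → ℂ := fun y => if 0 < y then Ph f A x ((x : ℂ) + y * Complex.I) else L
  have hF0 : F 0 = L := by simp [F]
  have hFeq : ∀ y : ℝ, 0 < y → F y = Ph f A x ((x : ℂ) + y * Complex.I) := fun y hy => by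
    simp [F, hy]
  have hFc : ContinuousWithinAt F (Set.Ici 0) 0 := by
    rw [← continuousWithinAt_Ioi_iff_Ici]
    show Tendsto F (𝓝[>] 0) (𝓝 (F 0))
    rw [hF0]
    refine hlim0.congr' ?_
    filter_upwards [self_mem_nhdsWithin] with y hy
    exact (hFeq y hy).symm
  have hFd : ∀ y ∈ Set.Ioi (0 : ℝ), HasDerivAt F
      ((-1) ^ A * Complex.I * (fzK f ((x : ℂ) + y * Complex.I) * (y : ℂ) ^ (2 * A))) y := by
    intro y hy
    refine (hder y hy).congr_of_eventuallyEq ?_
    filter_upwards [lt_mem_nhds (show (0 : ℝ) < y from hy)] with t ht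
    exact hFeq t ht
  have hFt : Tendsto F atTop (𝓝 0) := by
    refine hlimT.congr' ?_
    filter_upwards [eventually_gt_atTop 0] with y hy
    exact (hFeq y hy).symm
  have hmain := integral_Ioi_of_hasDerivAt_of_tendsto hFc hFd (hint.const_mul _) hFt
  rw [hF0, zero_sub, integral_const_mul] at hmain
  have hH : HK A f x = ∫ y in Set.Ioi (0 : ℝ), fzK f ((x : ℂ) + y * Complex.I) * (y : ℂ) ^ (2 * A) :=
    rfl
  rw [← hH] at hmain
  have h9 : (-1) ^ (A + 1) * Complex.I * HK A f x = L := by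
    rw [pow_succ]
    linear_combination (-1 : ℂ) * hmain
  calc (-1) ^ (A + 1) * Complex.I * (q : ℂ) ^ (2 * A) * HK A f x
      = (q : ℂ) ^ (2 * A) * ((-1) ^ (A + 1) * Complex.I * HK A f x) := by ring
    _ = (q : ℂ) ^ (2 * A) * L := by rw [h9]
    _ = ∑ j ∈ Finset.range (2 * A + 1), ((2 * A).choose j : ℂ) * (-(p : ℂ)) ^ (2 * A - j) *
          (q : ℂ) ^ j * I p q j := by
        rw [hL, Finset.mul_sum]
        refine Finset.sum_congr rfl fun j hj => ?_
        have hj' : j ≤ 2 * A := by have := Finset.mem_range.1 hj; omega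
        have h10 : (q : ℂ) ^ (2 * A) = (q : ℂ) ^ (2 * A - j) * (q : ℂ) ^ j := by
          rw [← pow_add, Nat.sub_add_cancel hj']
        have h11 : (q : ℂ) ^ (2 * A - j) * (-(x : ℂ)) ^ (2 * A - j) = (-(p : ℂ)) ^ (2 * A - j) := by
          rw [← mul_pow, hxc]
          congr 1
          field_simp
        rw [h10]
        linear_combination ((2 * A).choose j : ℂ) * (q : ℂ) ^ j * I p q j * h11

end Pool.Agent.Helper81.WK
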