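import Pool.Agent.Helper28.WK.StA

/-!
# Project WK, MODULE Bas: an integral family of symbols with odd determinant of `ev`
-/

set_option autoImplicit false

namespace Pool.Agent.Helper81.WK

open Pool.Agent.Helper14.CV Pool.Agent.Helper28.WK

private theorem odd_det {ι : Type} [Fintype ι] [DecidableEq ι] (k1 k2 : ι → ℕ)
    (hinj : ∀ t u, k1 t = k1 u → k2 t = k2 u → t = u) (M : Matrix ι ι ℤ)
    (hd : ∀ t, ((M t t : ℤ) : ZMod 2) = 1)
    (hM : ∀ t u, ((M t u : ℤ) : ZMod 2) ≠ 0 → k1 u < k1 t ∨ (k1 u = k1 t ∧ k2 u ≤ k2 t)) :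
    Odd M.det := by
  have : Fact (Nat.Prime 2) := ⟨Nat.prime_two⟩
  by_contra h0
  rw [Int.not_odd_iff_even, even_iff_two_dvd] at h0
  have h00 : ((M.det : ℤ) : ZMod 2) = 0 := by
    rw [ZMod.intCast_zmod_eq_zero_iff_dvd]
    exact_mod_cast h0
  have h1 : (M.map (fun x : ℤ => (x : ZMod 2))).det = 0 := by
    have := Int.cast_det (R := ZMod 2) M
    rw [h00] at this
    exact this.symm
  obtain ⟨v, hv, hz⟩ := Matrix.exists_vecMul_eq_zero_iff.2 h1
  have hne : (Finset.univ.filter fun t => v t ≠ 0).Nonempty := by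
    by_contra hc
    rw [Finset.not_nonempty_iff_eq_empty, Finset.filter_eq_empty_iff] at hc
    apply hv
    funext t
    simpa using hc (Finset.mem_univ t)
  obtain ⟨t0, ht0, hmax⟩ := Finset.exists_max_image _ (fun t => (toLex (k1 t, k2 t) : ℕ ×ₗ ℕ)) hne
  have hz0 := congrFun hz t0
  rw [Matrix.vecMul, dotProduct] at hz0
  rw [Finset.sum_eq_single t0] at hz0
  · simp only [Matrix.map_apply, hd, mul_one, Pi.zero_apply] at hz0
    exact (Finset.mem_filter.1 ht0).2 hz0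
  · intro t _ htn
    by_cases hvt : v t = 0
    · rw [hvt, zero_mul]
    · by_cases hm : ((M t t0 : ℤ) : ZMod 2) = 0
      · simp only [Matrix.map_apply, hm, mul_zero]
      · exfalso
        have h2 := hmax t (Finset.mem_filter.2 ⟨Finset.mem_univ _, hvt⟩)
        simp only [Prod.Lex.le_iff, ofLex_toLex] at h2
        have h3 := hM t t0 hm
        apply htn
        apply hinj
        · omega
        · omega
  · intro h
    exact absurd (Finset.mem_univ _) h

/-- The potential `G(2^r p, q)`. -/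
private def Go (r : ℕ) (G : ℤ → ℤ → ℤ) : ℤ → ℤ → ℤ := fun p q => G (2 ^ r * p) q

private lemma two_or (r : ℕ) {p q : ℤ} (h : p ≠ 0 ∨ q ≠ 0) : (2 ^ r * p ≠ 0 ∨ q ≠ 0) := by
  rcases h with h0 | h0
  · exact Or.inl (mul_ne_zero (by positivity) h0)
  · exact Or.inr h0

private lemma sym_Go {r s : ℕ} {G : ℤ → ℤ → ℤ} (h : Sym r s G) : Sym 0 (r + s) (Go r G) := by
  refine ⟨?_, ?_⟩
  · intro k p q hk hpq
    have e := h.1 k (2 ^ r * p) q hk (two_or r hpq)
    have e1 : 2 ^ r * (k * p) = k * (2 ^ r * p) := by ring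
    simp only [Go]
    rw [e1, e]
  · intro a b c d hdet _ hc
    obtain ⟨c', hc'⟩ := hc
    obtain ⟨k, hk⟩ := h.2 a (2 ^ r * b) (2 ^ s * c') d
      (by rw [← hdet, hc', pow_add]; ring) (Dvd.intro _ rfl) (Dvd.intro _ rfl)
    refine ⟨k, ?_⟩
    intro p q hpq
    have e := hk (2 ^ r * p) q (two_or r hpq)
    simp only [act, Go] at e ⊢
    have e1 : 2 ^ r * (a * p + b * q) = a * (2 ^ r * p) + 2 ^ r * b * q := by ring
    have e2 : c * p + d * q = 2 ^ s * c' * (2 ^ r * p) + d * q := by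
      rw [hc', pow_add]
      ring
    rw [e1, e2, e]

private lemma Tl_Go (l r : ℕ) (G : ℤ → ℤ → ℤ) : Tl l 1 (Go r G) = Go r (Tl l (2 ^ r) G) := by
  funext p q
  simp only [Tl, Go]
  congr 1
  · congr 1
    ring
  · refine Finset.sum_congr rfl ?_
    intro j _
    congr 1
    ring

private lemma homog_Tl {G : ℤ → ℤ → ℤ} (l : ℕ) (hl : 0 < l) (m : ℤ) (h : Homog G) :
    Homog (Tl l m G) := by
  intro k p q hk hpq
  have hl0 : (l : ℤ) ≠ 0 := by exact_mod_cast hl.ne'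
  simp only [Tl]
  congr 1
  · have e := h k (l * p) q hk (by
      rcases hpq with h0 | h0
      · exact Or.inl (mul_ne_zero hl0 h0)
      · exact Or.inr h0)
    rw [← e]
    congr 1
    ring
  · refine Finset.sum_congr rfl ?_
    intro j _
    have e := h k (p + m * j * q) (l * q) hk (by
      by_cases hq : q = 0
      · left
        rcases hpq with h0 | h0
        · rw [hq, mul_zero, add_zero]
          exact h0
        · exact absurd hq h0
      · exact Or.inr (mul_ne_zero hl0 hq))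
    rw [← e]
    congr 1
    · ring
    · ring

private lemma iter_Go (l r : ℕ) (G : ℤ → ℤ → ℤ) (i : ℕ) :
    (Tl l 1)^[i] (Go r G) = Go r ((Tl l (2 ^ r))^[i] G) := by
  induction i with
  | zero => rfl
  | succ i ih => rw [Function.iterate_succ_apply', Function.iterate_succ_apply', ih, Tl_Go]

private lemma iter_homog {G : ℤ → ℤ → ℤ} (l : ℕ) (hl : 0 < l) (m : ℤ) (h : Homog G) (i : ℕ) :
    Homog ((Tl l m)^[i] G) := by
  induction i with
  | zero => exact h
  | succ i ih =>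
    rw [Function.iterate_succ_apply']
    exact homog_Tl l hl m ih

private theorem unbZ (r s : ℕ) (G : ℤ → ℤ → ℤ) (hG : Sym r s G) :
    Sym 0 (r + s) (Go r G) ∧ ∀ i j : ℕ, ev 1 (Go r G) i j = ev (2 ^ r) G i j := by
  refine ⟨sym_Go hG, ?_⟩
  intro i j
  unfold ev
  rw [iter_Go, iter_Go]
  have hH : Homog ((Tl 3 (2 ^ r))^[i] ((Tl 5 (2 ^ r))^[j] G)) :=
    iter_homog 3 (by norm_num) _ (iter_homog 5 (by norm_num) _ hG.1 j) i
  have e := hH (2 ^ r) 1 0 (by positivity) (Or.inl one_ne_zero)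
  rw [mul_zero] at e
  simp only [Go]
  rw [mul_zero, e]

private theorem core (r s N n : ℕ) (I : Finset (ℕ × ℕ))
    (hI : ∀ t ∈ I, 2 * t.1 + 2 * t.2 + 1 < 2 ^ r ∧ t.1 + 2 * t.2 < 2 ^ s) (hN : I.card = N)
    (hn : r + 1 + (s + 1) = n) (hrs : 3 ≤ r + s) (hTri : StTri) (hLif : StLif) :
    ∃ (G : Fin N → ℤ → ℤ → ℤ) (ij : Fin N → ℕ × ℕ), (∀ k, Sym 0 n (G k)) ∧
      Odd (Matrix.det (Matrix.of fun k l => ev 1 (G k) (ij l).1 (ij l).2)) := by
  have h1 : ∀ t : I, ∃ G : ℤ → ℤ → ℤ, Sym 0 n G ∧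
      (((ev 1 G t.1.1 t.1.2 : ℤ) : ZMod 2) = 1) ∧
      ∀ i j, (((ev 1 G i j : ℤ) : ZMod 2) ≠ 0 →
        (3 * i + 4 * j < 3 * t.1.1 + 4 * t.1.2 ∨
          (3 * i + 4 * j = 3 * t.1.1 + 4 * t.1.2 ∧ i + 2 * j ≤ t.1.1 + 2 * t.1.2))) := by
    intro t
    obtain ⟨ha, hb⟩ := hI t.1 t.2
    obtain ⟨g, hg, hg1, hg2⟩ := hTri r s t.1.1 t.1.2 hrs ha hb
    obtain ⟨G, hG, hGe⟩ := hLif r s g hg
    obtain ⟨hS, hE⟩ := unbZ (r + 1) (s + 1) G hG
    refine ⟨Go (r + 1) G, hn ▸ hS, ?_, ?_⟩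
    · rw [hE, hGe, hg1]
    · intro i j hij
      apply hg2
      rw [← hGe, ← hE]
      exact hij
  choose G hS hd hM using h1
  let M : Matrix I I ℤ := Matrix.of fun t u => ev 1 (G t) u.1.1 u.1.2
  have hdet : Odd M.det := by
    refine odd_det (fun t : I => 3 * t.1.1 + 4 * t.1.2) (fun t : I => t.1.1 + 2 * t.1.2) ?_ M
      (fun t => hd t) (fun t u htu => hM t _ _ htu)
    intro t u h2 h3
    apply Subtype.ext
    apply Prod.ext
    · omega
    · omega
  let e : Fin N ≃ I := (I.equivFinOfCardEq hN).symm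
  refine ⟨fun k => G (e k), fun l => (e l).1, fun k => hS (e k), ?_⟩
  have he : (Matrix.of fun k l => ev 1 (G (e k)) (e l).1.1 (e l).1.2) = M.submatrix e e := rfl
  rw [he, Matrix.det_submatrix_equiv_self]
  exact hdet

theorem hBas : StBas := by
  intro hTri hLif hCnt n hn
  rcases Nat.even_or_odd' n with ⟨k, hk | hk⟩
  · subst hk
    refine core (k - 1) (k - 1) _ _ _ ?_ (hCnt.1 k (by omega)) (by omega) (by omega) hTri hLif
    intro t ht
    exact (Finset.mem_filter.1 ht).2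
  · subst hk
    refine core k (k - 1) _ _ _ ?_ (hCnt.2 k (by omega)) (by omega) (by omega) hTri hLif
    intro t ht
    exact (Finset.mem_filter.1 ht).2

end Pool.Agent.Helper81.WK
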